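import Pool.Agent.TH188.VT.Add

/-!
# Towers of p-th roots of products of powers over products of surfaces
-/

set_option autoImplicit false
set_option linter.unusedVariables false
set_option linter.unusedSectionVars false

universe u

open Polynomial Pool.Agent.W558 Pool.Agent.TH188.WP Pool.Agent.TH188.WQ Pool.Agent.TH188.VQ
  TensorProduct

namespace Pool.Agent.TH188.VT

section mul

variable (p : ℕ) [Fact p.Prime] {k K : Type u} [Field k] [PerfectField k] [CharP k p] [Field K]
  [Algebra k K] {n : ℕ} (E : Fin n → IntermediateField k K)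

/-- Models of towers of `p`-th roots of products of powers. -/
theorem tower_model_mul (hE : ∀ i, SurfM k (E i))
    (hdis : Function.Injective (mulHom E)) (g : ∀ i, E i) (hg0 : ∀ i, g i ≠ 0) (r : ℕ)
    (w : Fin r → K) (a : Fin r → Fin n → ℤ)
    (hw : ∀ j, w j ^ p = ∏ i, (g i : K) ^ a j i)
    (hgen : IntermediateField.adjoin k (Set.range w ∪ ⋃ i, (E i : Set K)) = ⊤)
    (S : Type) [Finite S] (s : S → ∀ i, E i) (hs : ∀ b i, s b i ≠ 0) :
    ∃ (T I : Type) (_ : Finite T) (_ : Fintype I) (M : LM (⊥ : Subalgebra k K) ⊤ T I)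
      (Γ : S → I → ℤ), Fn M (fun b => ∏ i, (s b i : K)) Γ ∧ Frc M := by
  classical
  have hp : p.Prime := Fact.out
  let L := cps E
  have hcL : CharP L p := charP_of_injective_algebraMap (algebraMap k L).injective p
  have hcK : CharP K p := charP_of_injective_algebraMap (algebraMap k K).injective p
  let e : ∀ i, E i →ₐ[k] L := fun i =>
    (E i).val.codRestrict L.toSubalgebra (fun a => mem_cps E i a)
  have he : ∀ i x, ((e i x : L) : K) = (x : K) := fun i x => rfl
  -- roots
  have hroot : ∀ i, ∃ b : E i, b ≠ 0 ∧ ((∃ b, b ^ p = g i) → b ^ p = g i) := by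
    intro i
    by_cases h : ∃ b, b ^ p = g i
    · obtain ⟨b, hb⟩ := h
      refine ⟨b, ?_, fun _ => hb⟩
      rintro rfl
      rw [zero_pow hp.ne_zero] at hb
      exact hg0 i hb.symm
    · exact ⟨1, one_ne_zero, fun h' => absurd h' h⟩
  choose bb hbb0 hbb using hroot
  let ι : Fin n → Type := fun i => PLift (¬ ∃ b, b ^ p = g i)
  have hιf : ∀ i, Fintype (ι i) := fun i => Fintype.ofFinite _
  let f : ∀ i, ι i → E i := fun i _ => g i
  have hf : ∀ i l, ¬ ∃ b, b ^ p = f i l := fun i l => l.down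
  let c : ∀ i, Unit ⊕ S → E i := fun i => Sum.elim (fun _ => g i) (fun b => s b i)
  have hc : ∀ i b, c i b ≠ 0 := by
    rintro i (_ | b)
    · exact hg0 i
    · exact hs b i
  have hGM := gm_cps p E hE hdis ι f hf (Unit ⊕ S) c hc
  have hgK : ∀ i, (g i : K) ≠ 0 := fun i h => hg0 i (Subtype.ext h)
  -- exponents
  let μ : Fin r → (Σ i, ι i) → ZMod p := fun j q => (a j q.1 : ZMod p)
  have hdiv : ∀ j i, ∃ b : ℤ, a j i = ((a j i : ZMod p).val : ℤ) + p * b := by
    intro j i
    have h1 : ((((a j i : ZMod p).val : ℤ) : ZMod p)) = (a j i : ZMod p) := by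
      rw [Int.cast_natCast, ZMod.natCast_zmod_val]
    obtain ⟨b, hb⟩ := (ZMod.intCast_eq_intCast_iff_dvd_sub _ _ p).1 h1
    exact ⟨b, by rw [← hb]; ring⟩
  choose d hd using hdiv
  -- the correction terms
  let c0 : Fin r → L := fun j => ∏ i, if h : ∃ b, b ^ p = g i then e i (bb i) ^ a j i else
    e i (g i) ^ d j i
  have hc0 : ∀ j, c0 j ≠ 0 := by
    intro j
    refine Finset.prod_ne_zero_iff.2 fun i _ => ?_
    split_ifs with h
    · exact zpow_ne_zero _ ((map_ne_zero_iff _ (e i).injective).2 (hbb0 i))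
    · exact zpow_ne_zero _ ((map_ne_zero_iff _ (e i).injective).2 (hg0 i))
  have hprod : ∀ j, ∏ i, e i (g i) ^ a j i =
      pw p (fun q : Σ i, ι i => (⟨(f q.1 q.2 : K), mem_cps E _ _⟩ : L)) (μ j) * c0 j ^ p := by
    intro j
    change _ = (∏ q : Σ i, ι i, _) * (∏ i, _) ^ p
    rw [Fintype.prod_sigma, ← Finset.prod_pow, ← Finset.prod_mul_distrib]
    refine Finset.prod_congr rfl fun i _ => ?_
    by_cases h : ∃ b, b ^ p = g i
    · rw [dif_pos h, Finset.prod_eq_one (fun l _ => absurd h l.down), one_mul, ← zpow_natCast,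
        ← zpow_mul, mul_comm (a j i), zpow_mul, zpow_natCast, ← map_pow, hbb i h]
    · rw [dif_neg h, Fintype.prod_eq_single (⟨h⟩ : ι i) (fun l hl =>
        absurd (Subsingleton.elim _ _) hl)]
      change e i (g i) ^ a j i = e i (g i) ^ (a j i : ZMod p).val * (e i (g i) ^ d j i) ^ p
      have h0 : e i (g i) ≠ 0 := (map_ne_zero_iff _ (e i).injective).2 (hg0 i)
      rw [← zpow_natCast (e i (g i)), ← zpow_natCast (e i (g i) ^ d j i), ← zpow_mul,
        ← zpow_add₀ h0]
      congr 1
      rw [mul_comm (d j i)]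
      exact hd j i
  let w' : Fin r → K := fun j => w j / (c0 j : K)
  have hc0K : ∀ j, algebraMap L K (c0 j) ≠ 0 := fun j =>
    (_root_.map_ne_zero (algebraMap L K)).2 (hc0 j)
  have hw' : ∀ j, w' j ^ p = algebraMap L K
      (pw p (fun q : Σ i, ι i => (⟨(f q.1 q.2 : K), mem_cps E _ _⟩ : L)) (μ j)) := by
    intro j
    change (w j / algebraMap L K (c0 j)) ^ p = _
    have h1 : w j ^ p = algebraMap L K (∏ i, e i (g i) ^ a j i) := by
      rw [hw, map_prod]
      refine Finset.prod_congr rfl fun i _ => ?_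
      rw [map_zpow₀]
      rfl
    rw [div_pow, h1, hprod j, map_mul, map_pow, mul_div_assoc, div_self (pow_ne_zero _ (hc0K j)),
      mul_one]
  have htop : IntermediateField.adjoin L (Set.range w') = ⊤ := by
    refine adjoin_top E w w' hgen fun j => ?_
    have h1 : w j = w' j * algebraMap L K (c0 j) := (div_mul_cancel₀ _ (hc0K j)).symm
    rw [h1]
    exact mul_mem (IntermediateField.subset_adjoin L _ ⟨j, rfl⟩)
      (IntermediateField.algebraMap_mem _ _)
  obtain ⟨T, I, hT, hI, M, Γ, hF, hR⟩ := tower_mul p K hGM (fun q =>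
      Submonoid.subset_closure ⟨(q.1, Sum.inl ()), rfl⟩)
    (fun q h => hg0 q.1 (Subtype.ext (congrArg (fun z : L => (z : K)) h))) r w' μ hw' htop
  obtain ⟨Γ', hΓ'⟩ := fin_model hF (fun b : S => ∏ i, (s b i : K)) (by
    intro b
    refine Submonoid.prod_mem _ fun i _ => Submonoid.subset_closure ⟨(i, Sum.inr b), rfl⟩)
  exact ⟨T, I, hT, hI, M, Γ', hΓ', hR⟩

end mul

end Pool.Agent.TH188.VT
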