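import Pool.Agent.TH188.VT.Defs
import Pool.Agent.TH188.VT.Mul
import Pool.Agent.TH188.WP.Res
import Pool.Agent.TH188.WP.RatF

/-!
# Towers of p-th roots over products of surfaces: models
-/

set_option autoImplicit false
set_option linter.unusedVariables false
set_option linter.unusedSectionVars false

universe u

open Polynomial Pool.Agent.W558 Pool.Agent.TH188.WP Pool.Agent.TH188.WQ Pool.Agent.TH188.VQ
  TensorProduct

namespace Pool.Agent.TH188.VT

lemma hasModel_of {k E : Type u} [Field k] [Field E] [Algebra k E]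
    (h : HasSmoothProjectiveModel k E) : HasModel k E := by
  obtain ⟨N, H, h0, h1⟩ := h
  refine ⟨N, H, h0, fun i => ⟨(h1 i).1, fun x => ?_⟩⟩
  have h2 := (h1 i).2
  obtain ⟨a, b, hb, rfl⟩ := IsFractionRing.div_surjective
    (A := Algebra.adjoin k (Set.range fun j => H j / H i)) x
  exact ⟨a, a.2, b, b.2, fun h => nonZeroDivisors.ne_zero hb (Subtype.ext h),
    div_eq_mul_inv _ _⟩

section main

variable {p : ℕ} [Fact p.Prime] {k K : Type u} [Field k] [PerfectField k] [CharP k p] [Field K]
  [Algebra k K] {n : ℕ} {E : Fin n → IntermediateField k K}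

lemma surfM_of (hE : AreIndependentSurfaceFields E) :
    (∀ i, SurfM k (E i)) ∧ Function.Injective (mulHom E) := by
  rcases hE with ⟨h, hd⟩ | ⟨x, hx, hE⟩
  · exact ⟨fun i => SurfM.of_hasModel (h i).1 (hasModel_of (h i).2), hd⟩
  · have hxi : ∀ i, AlgebraicIndependent k (x i) := fun i =>
      hx.comp (fun c => (i, c)) (Prod.mk_right_injective i)
    have hE' : E = fun i => IntermediateField.adjoin k (Set.range (x i)) := funext hE
    subst hE'
    exact ⟨fun i => SurfM.of_hasModel (pair_field (x i) (hxi i)).1 (pair_field (x i) (hxi i)).2,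
      disj_of_ind x hx⟩

/-- Models of towers. -/
theorem exists_models {r : ℕ} {w : Fin r → K} (h : IsInseparableTower E p w)
    (G : Type) [Finite G] (y : G → K) (hy0 : ∀ b, y b ≠ 0)
    (hy : ∀ b, ∃ s : ∀ i, E i, y b = ∏ i, (s i : K)) :
    ∃ (T I : Type) (_ : Finite T) (_ : Fintype I) (M : LM (⊥ : Subalgebra k K) ⊤ T I)
      (Γ : G → I → ℤ), Fn M y Γ ∧ Frc M := by
  classical
  obtain ⟨hE, hdis⟩ := surfM_of h.surfaces
  choose s hs using hy
  have hs0 : ∀ b i, s b i ≠ 0 := by
    intro b i h0
    apply hy0 b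
    rw [hs b]
    exact Finset.prod_eq_zero (Finset.mem_univ i) (by rw [h0]; rfl)
  have hys : y = fun b => ∏ i, (s b i : K) := funext hs
  rw [hys]
  rcases h.roots with ⟨m, g, c, hg, hw⟩ | ⟨g, a, hg0, hw⟩
  · let J' := {j : Fin m // ∀ i, g j i ≠ 0}
    refine tower_model_add p E hE hdis J' (fun j => g j.1)
      (fun i j j' hne => hg i j.1 j'.1 fun h => hne (Subtype.ext h)) (fun j => j.2) r w
      (fun j t => c j t.1) ?_ h.generate G s hs0
    intro j
    have h1 : ∑ t, c j t • ∏ i, (g t i : K) =
        ∑ t ∈ Finset.univ.filter (fun t => ∀ i, g t i ≠ 0), c j t • ∏ i, (g t i : K) := by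
      refine (Finset.sum_filter_of_ne fun t _ ht i hi => ht ?_).symm
      rw [Finset.prod_eq_zero (Finset.mem_univ i) (by rw [hi]; rfl), smul_zero]
    rw [hw, h1]
    exact Finset.sum_subtype (Finset.univ.filter fun t => ∀ i, g t i ≠ 0)
      (p := fun t => ∀ i, g t i ≠ 0) (F := inferInstance) (by simp) _
  · exact tower_model_mul p E hE hdis g hg0 r w a hw h.generate G s hs0

/-- Smooth charts over affine varieties with the function field `K`. -/
theorem exists_charts {r : ℕ} {w : Fin r → K} (h : IsInseparableTower E p w)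
    (A : Type u) [CommRing A] [IsDomain A] [Algebra k A] [Algebra.FiniteType k A] [Algebra A K]
    [IsScalarTower k A K] [IsFractionRing A K] (S : Finset A)
    (hS : ∀ a ∈ S, ∃ s : ∀ i, E i, algebraMap A K a = ∏ i, (s i : K))
    (hA : ∀ a : A, IsIntegral (Algebra.adjoin k (S : Set A)) a) :
    ∃ (T I : Type) (_ : Finite T) (_ : Fintype I),
      Nonempty (LM (IsScalarTower.toAlgHom k A K).range (IsScalarTower.toAlgHom k A K).range
        T I) := by
  classical
  let S' : Finset A := S.filter fun a => a ≠ 0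
  have hS' : (S' : Set A) = {a | a ∈ (S : Set A) ∧ a ≠ 0} := by
    ext a; simp [S']
  have hinj := IsFractionRing.injective A K
  obtain ⟨ε⟩ : Nonempty ({a // a ∈ S'} ≃ Fin S'.card) := ⟨S'.equivFin⟩
  have hmem : ∀ b : Fin S'.card, (ε.symm b).1 ∈ S ∧ (ε.symm b).1 ≠ 0 := fun b => by
    have h1 := (ε.symm b).2
    simp only [S', Finset.mem_filter] at h1
    exact h1
  obtain ⟨T, I, hT, hI, M, Γ, hF, hR⟩ := exists_models h (Fin S'.card)
    (fun b => algebraMap A K (ε.symm b).1)
    (fun b h => (hmem b).2 (hinj (h.trans (map_zero _).symm))) (fun b => hS _ (hmem b).1)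
  exact LM_of_fn' M _ Γ hF hR A
    (fun b => (ε.symm b).1) (fun b => rfl) (by
      have h1 : Set.range (fun b => (ε.symm b).1) = (S' : Set A) := by
        ext a
        constructor
        · rintro ⟨b, rfl⟩
          exact (ε.symm b).2
        · intro ha
          exact ⟨ε ⟨a, ha⟩, by simp⟩
      rw [h1, hS', adjoin_erase_zero]
      exact hA)

end main

end Pool.Agent.TH188.VT
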