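import Pool.Agent.TH188.VQ.Model
import Pool.Agent.TH188.WP.Main

/-!
# Towers of p-th roots over products of surfaces
-/

set_option autoImplicit false
set_option linter.unusedVariables false
set_option linter.unusedSectionVars false

universe u

open Polynomial Pool.Agent.W558 Pool.Agent.TH188.WP Pool.Agent.TH188.WQ Pool.Agent.TH188.VQ
  TensorProduct

namespace Pool.Agent.TH188.VT

section gen

variable {k K : Type u} [Field k] [Field K] [Algebra k K] {n : ℕ}

/-- Generators of the extension of the compositum. -/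
lemma adjoin_top (E : Fin n → IntermediateField k K) {r : ℕ} (w w' : Fin r → K)
    (hgen : IntermediateField.adjoin k (Set.range w ∪ ⋃ i, (E i : Set K)) = ⊤)
    (hw : ∀ j, w j ∈ IntermediateField.adjoin (cps E) (Set.range w')) :
    IntermediateField.adjoin (cps E) (Set.range w') = ⊤ := by
  rw [← IntermediateField.restrictScalars_eq_top_iff (K := k), eq_top_iff, ← hgen,
    IntermediateField.adjoin_le_iff]
  rintro y (⟨j, rfl⟩ | hy)
  · exact hw j
  · exact (IntermediateField.adjoin (cps E) (Set.range w')).algebraMap_mem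
      ⟨y, IntermediateField.subset_adjoin k _ hy⟩

end gen

section add

variable (p : ℕ) [Fact p.Prime] {k K : Type u} [Field k] [PerfectField k] [CharP k p] [Field K]
  [Algebra k K] {n : ℕ} (E : Fin n → IntermediateField k K)

/-- Models of towers of `p`-th roots of linear combinations of products. -/
theorem tower_model_add (hE : ∀ i, SurfM k (E i))
    (hdis : Function.Injective (mulHom E)) (J : Type) [Fintype J] (g : J → ∀ i, E i)
    (hg : ∀ i j j', j ≠ j' → (∃ b, b ^ p = g j i) ∨ ∃ b, b ^ p = g j' i)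
    (hg0 : ∀ j i, g j i ≠ 0) (r : ℕ) (w : Fin r → K) (lam : Fin r → J → k)
    (hw : ∀ j, w j ^ p = ∑ t, lam j t • ∏ i, (g t i : K))
    (hgen : IntermediateField.adjoin k (Set.range w ∪ ⋃ i, (E i : Set K)) = ⊤)
    (S : Type) [Finite S] (s : S → ∀ i, E i) (hs : ∀ b i, s b i ≠ 0) :
    ∃ (T I : Type) (_ : Finite T) (_ : Fintype I) (M : LM (⊥ : Subalgebra k K) ⊤ T I)
      (Γ : S → I → ℤ), Fn M (fun b => ∏ i, (s b i : K)) Γ ∧ Frc M := by
  classical
  have hp : p.Prime := Fact.out
  let L := cps E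
  have hcL : CharP L p := charP_of_injective_algebraMap (algebraMap k L).injective p
  have hcK : CharP K p := charP_of_injective_algebraMap (algebraMap k K).injective p
  let e : ∀ i, E i →ₐ[k] L := fun i =>
    (E i).val.codRestrict L.toSubalgebra (fun a => mem_cps E i a)
  -- roots
  have hroot : ∀ (j : J) i, ∃ b : E i, b ≠ 0 ∧ ((∃ b, b ^ p = g j i) → b ^ p = g j i) ∧
      ((¬ ∃ b, b ^ p = g j i) → b = 1) := by
    intro j i
    by_cases h : ∃ b, b ^ p = g j i
    · obtain ⟨b, hb⟩ := h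
      refine ⟨b, ?_, fun _ => hb, fun h => absurd ⟨b, hb⟩ h⟩
      rintro rfl
      rw [zero_pow hp.ne_zero] at hb
      exact hg0 j i hb.symm
    · exact ⟨1, one_ne_zero, fun h' => absurd h' h, fun _ => rfl⟩
  choose bb hbb0 hbb hbb' using hroot
  let ι : Fin n → Type := fun i => {j : J // ¬ ∃ b, b ^ p = g j i}
  have hιs : ∀ i, Subsingleton (ι i) := by
    intro i
    refine ⟨fun a b => ?_⟩
    by_contra hne
    have h1 : a.1 ≠ b.1 := fun h => hne (Subtype.ext h)
    rcases hg i a.1 b.1 h1 with h | h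
    · exact a.2 h
    · exact b.2 h
  let f : ∀ i, ι i → E i := fun i l => g l.1 i
  have hf : ∀ i l, ¬ ∃ b, b ^ p = f i l := fun i l => l.2
  let c : ∀ i, (J ⊕ J) ⊕ S → E i := fun i => Sum.elim (Sum.elim (fun j => g j i) fun j => bb j i)
    (fun b => s b i)
  have hc : ∀ i b, c i b ≠ 0 := by
    rintro i ((j | j) | b)
    · exact hg0 j i
    · exact hbb0 j i
    · exact hs b i
  have hGM := gm_cps p E hE hdis ι f hf ((J ⊕ J) ⊕ S) c hc
  let J1 := {j : J // ∃ i, ¬ ∃ b, b ^ p = g j i}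
  let σ : (Σ i, ι i) → J1 := fun q => ⟨q.2.1, q.1, q.2.2⟩
  have hσs : Function.Surjective σ := by
    rintro ⟨j, i, hji⟩
    exact ⟨⟨i, ⟨j, hji⟩⟩, rfl⟩
  have hcl : ∀ i (b : (J ⊕ J) ⊕ S), e i (c i b) ∈ Submonoid.closure
      (Set.range fun q : Fin n × ((J ⊕ J) ⊕ S) => (⟨(c q.1 q.2 : K), mem_cps E _ _⟩ : L)) :=
    fun i b => Submonoid.subset_closure ⟨(i, b), rfl⟩
  have hGM2 := gm_pr p hGM σ hσs (fun j => ∏ i, e i (bb j.1 i))
    (fun q => hcl q.1 (Sum.inl (Sum.inl q.2.1)))
    (fun j => Submonoid.prod_mem _ fun i _ => hcl i (Sum.inl (Sum.inr j.1)))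
  -- the correction terms
  have hlam : ∀ j t, ∃ m : k, m ^ p = lam j t := fun j t => by
    obtain ⟨m, hm⟩ := (bijective_frobenius k p).2 (lam j t)
    exact ⟨m, hm⟩
  choose mu hmu using hlam
  let a0 : Fin r → L := fun j => ∑ t, if (∃ i, ¬ ∃ b, b ^ p = g t i) then 0 else
    algebraMap k L (mu j t) * ∏ i, e i (bb t i)
  have hfib : ∀ t : J1, ∏ i, e i (g t.1 i) = (∏ i, e i (bb t.1 i)) ^ p *
      ∏ q ∈ Finset.univ.filter (fun q => σ q = t), e q.1 (g q.2.1 q.1) := fun t =>
    prod_fiber p (fun i => (e i : E i →+* L)) g hg0 bb hbb hbb' σ (fun q => rfl) t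
  have hsum : ∀ j, ∑ t, algebraMap k L (lam j t) * ∏ i, e i (g t i) =
      ∑ t : J1, algebraMap k L (lam j t.1) * ∏ i, e i (g t.1 i) + a0 j ^ p := by
    intro j
    change _ = _ + (∑ t, _) ^ p
    rw [sum_pow_char]
    have h1 : ∀ t, algebraMap k L (lam j t) * ∏ i, e i (g t i) =
        (if (∃ i, ¬ ∃ b, b ^ p = g t i) then algebraMap k L (lam j t) * ∏ i, e i (g t i) else 0) +
        (if (∃ i, ¬ ∃ b, b ^ p = g t i) then 0 else
          algebraMap k L (mu j t) * ∏ i, e i (bb t i)) ^ p := by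
      intro t
      split_ifs with h
      · rw [zero_pow hp.ne_zero, add_zero]
      · push Not at h
        rw [zero_add, mul_pow, ← map_pow, hmu, ← Finset.prod_pow]
        congr 1
        refine Finset.prod_congr rfl fun i _ => ?_
        rw [← map_pow, hbb t i (h i)]
    rw [Finset.sum_congr rfl fun t _ => h1 t, Finset.sum_add_distrib]
    congr 1
    rw [← Finset.sum_filter]
    rw [Finset.sum_subtype (Finset.univ.filter fun t => ∃ i, ¬ ∃ b, b ^ p = g t i)
      (p := fun t => ∃ i, ¬ ∃ b, b ^ p = g t i) (F := inferInstance) (by simp)]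
  let w' : Fin r → K := fun j => w j - (a0 j : K)
  have hKL : ∀ j, ((∑ t, algebraMap k L (lam j t) * ∏ i, e i (g t i) : L) : K) = w j ^ p := by
    intro j
    rw [hw, ← IntermediateField.algebraMap_apply, map_sum]
    refine Finset.sum_congr rfl fun t _ => ?_
    rw [map_mul, map_prod, Algebra.smul_def]
    rfl
  have hw' : ∀ j, w' j ^ p = algebraMap L K (∑ t : J1, algebraMap k L (lam j t.1) *
      ((∏ i, e i (bb t.1 i)) ^ p *
      ∏ q ∈ Finset.univ.filter (fun q => σ q = t), (⟨(f q.1 q.2 : K), mem_cps E _ _⟩ : L))) := by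
    intro j
    have h1 : ∑ t : J1, algebraMap k L (lam j t.1) * ((∏ i, e i (bb t.1 i)) ^ p *
        ∏ q ∈ Finset.univ.filter (fun q => σ q = t), (⟨(f q.1 q.2 : K), mem_cps E _ _⟩ : L)) =
        ∑ t : J1, algebraMap k L (lam j t.1) * ∏ i, e i (g t.1 i) :=
      Finset.sum_congr rfl fun t _ => by rw [hfib t]; rfl
    rw [h1]
    change (w j - algebraMap L K (a0 j)) ^ p = _
    rw [sub_pow_char, ← hKL j, ← map_pow, ← IntermediateField.algebraMap_apply, ← map_sub, hsum j,
      add_sub_cancel_right]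
  have htop : IntermediateField.adjoin L (Set.range w') = ⊤ := by
    refine adjoin_top E w w' hgen fun j => ?_
    have h1 : w j = w' j + algebraMap L K (a0 j) := (sub_add_cancel _ _).symm
    rw [h1]
    exact add_mem (IntermediateField.subset_adjoin L _ ⟨j, rfl⟩)
      (IntermediateField.algebraMap_mem _ _)
  obtain ⟨T, I, hT, hI, M, Γ, hF, hR⟩ := tower_add p K hGM2 r w' (fun j t => lam j t.1) hw' htop
  obtain ⟨Γ', hΓ'⟩ := fin_model hF (fun b : S => ∏ i, (s b i : K)) (by
    intro b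
    refine Submonoid.prod_mem _ fun i _ => Submonoid.subset_closure ⟨(i, Sum.inr b), rfl⟩)
  exact ⟨T, I, hT, hI, M, Γ', hΓ', hR⟩

end add

end Pool.Agent.TH188.VT
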