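import Mathlib

/-!
# Towers of p-th roots over products of surfaces: definitions
-/

set_option autoImplicit false

universe u

open TensorProduct

namespace Pool.Agent.TH188.VT

/-- The field `E` is the function field of a smooth projective variety over `k`, given by
homogeneous coordinates `H 0, ..., H N` in `E`: the coordinate rings `k[H 0 / H i, ..., H N / H i]`
of the charts are smooth over `k` and have the fraction field `E`. For function fields of surfaces
over perfect fields this condition is always satisfied, by the resolution of singularities of
surfaces. -/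
def HasSmoothProjectiveModel (k E : Type u) [Field k] [Field E] [Algebra k E] : Prop :=
  ∃ (N : ℕ) (H : Fin (N + 1) → E), (∀ i, H i ≠ 0) ∧ ∀ i,
    Algebra.Smooth k (Algebra.adjoin k (Set.range fun j => H j / H i)) ∧
    IsFractionRing (Algebra.adjoin k (Set.range fun j => H j / H i)) E

section

variable {k K : Type u} [Field k] [Field K] [Algebra k K] {n : ℕ}
  (E : Fin n → IntermediateField k K)

/-- The subfields `E 1, ..., E n` of `K` are linearly disjoint over `k`: the homomorphism from their
tensor product over `k` to `K`, which maps `x 1 ⊗ ... ⊗ x n` to `x 1 * ... * x n`, is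
injective. -/
def LinearlyDisjoint : Prop :=
  Function.Injective (PiTensorProduct.lift ((MultilinearMap.mkPiAlgebra k (Fin n) K).compLinearMap
    fun i => (E i).val.toLinearMap))

/-- The subfields `E 1, ..., E n` of `K` are either linearly disjoint function fields of smooth
projective surfaces over `k`, or the fields `E i = k(x i 0, x i 1)` for elements `x i j` of `K`
which are algebraically independent over `k`. -/
def AreIndependentSurfaceFields : Prop :=
  ((∀ i, Algebra.trdeg k (E i) = 2 ∧ HasSmoothProjectiveModel k (E i)) ∧ LinearlyDisjoint E) ∨
    ∃ x : Fin n → Fin 2 → K, AlgebraicIndependent k (fun q : Fin n × Fin 2 => x q.1 q.2) ∧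
      ∀ i, E i = IntermediateField.adjoin k (Set.range (x i))

/-- The elements `w j ^ p` are linear combinations with coefficients in `k` of products
`g t 1 * ... * g t n` of elements `g t i` of the `E i` such that for every `i` at most one of the
elements `g t i` is not a `p`-th power in `E i`. -/
def AreRootsOfSums (p : ℕ) {r : ℕ} (w : Fin r → K) : Prop :=
  ∃ (m : ℕ) (g : Fin m → ∀ i, E i) (c : Fin r → Fin m → k),
    (∀ i t t', t ≠ t' → (∃ b, b ^ p = g t i) ∨ ∃ b, b ^ p = g t' i) ∧
    ∀ j, w j ^ p = ∑ t, c j t • ∏ i, (g t i : K)

/-- The elements `w j ^ p` are products of powers of elements `g i ≠ 0` of the `E i`. -/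
def AreRootsOfMonomials (p : ℕ) {r : ℕ} (w : Fin r → K) : Prop :=
  ∃ (g : ∀ i, E i) (a : Fin r → Fin n → ℤ), (∀ i, g i ≠ 0) ∧
    ∀ j, w j ^ p = ∏ i, (g i : K) ^ a j i

/-- The field `K` is generated by the linearly disjoint function fields `E i` of surfaces and the
elements `w j`, whose `p`-th powers are linear combinations of products, or products of powers, of
elements of the `E i`. -/
structure IsInseparableTower (p : ℕ) {r : ℕ} (w : Fin r → K) : Prop where
  surfaces : AreIndependentSurfaceFields E
  roots : AreRootsOfSums E p w ∨ AreRootsOfMonomials E p w
  generate : IntermediateField.adjoin k (Set.range w ∪ ⋃ i, (E i : Set K)) = ⊤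

end

end Pool.Agent.TH188.VT
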